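import Mathlib
import Pool.Agent.R958.HamC

/-!
Bootstrap percolation with threshold three on the four dimensional Hamming torus: an open plane
and a few further open vertices fill everything.
-/

set_option autoImplicit false

open Finset Function

namespace Pool.Agent.K6.H74.Ham

open Pool.Agent.R958.Ham

variable {n : ℕ} {ω : V n 4 → Bool}

lemma dist_upd (v : V n 4) {k : Fin 4} {x : Fin n} (hx : x ≠ v k) :
    hammingDist v (update v k x) = 1 := by
  have := dist_update v k hx.symm
  rwa [update_eq_self] at this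

lemma upd_ne {v : V n 4} {k l : Fin 4} {x y : Fin n} (hx : x ≠ v k) (h : k ≠ l ∨ x ≠ y) :
    update v k x ≠ update v l y := by
  intro e
  by_cases hkl : k = l
  · subst hkl
    have := congrFun e k
    rw [update_self, update_self] at this
    rcases h with h | h
    · exact h rfl
    · exact h this
  · have := congrFun e k
    rw [update_self, update_of_ne hkl] at this
    exact hx this

lemma open3 {v : V n 4} (k l m : Fin 4) (x y z : Fin n) (hx : x ≠ v k) (hy : y ≠ v l)
    (hz : z ≠ v m) (h1 : k ≠ l ∨ x ≠ y) (h2 : k ≠ m ∨ x ≠ z) (h3 : l ≠ m ∨ y ≠ z)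
    (f1 : FinalOpen 3 ω (update v k x)) (f2 : FinalOpen 3 ω (update v l y))
    (f3 : FinalOpen 3 ω (update v m z)) : FinalOpen 3 ω v :=
  final_of_three (upd_ne hx h1) (upd_ne hx h2) (upd_ne hy h3) (dist_upd v hx) (dist_upd v hy)
    (dist_upd v hz) f1 f2 f3

lemma ext4 {i j k l : Fin 4} (hall : ∀ m : Fin 4, m = i ∨ m = j ∨ m = k ∨ m = l) {x y : V n 4}
    (h1 : x i = y i) (h2 : x j = y j) (h3 : x k = y k) (h4 : x l = y l) : x = y := by
  funext m
  rcases hall m with rfl | rfl | rfl | rfl <;> assumption

/-- an open plane fills a three dimensional subgraph -/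
theorem fill_three {i j k l : Fin 4} (hij : i ≠ j) (hik : i ≠ k) (hil : i ≠ l) (hjk : j ≠ k)
    (hjl : j ≠ l) (hkl : k ≠ l) (hall : ∀ m : Fin 4, m = i ∨ m = j ∨ m = k ∨ m = l) (a : V n 4)
    (hP : ∀ x : V n 4, x k = a k → x l = a l → FinalOpen 3 ω x)
    (G1 : ∃ y1 y2 : V n 4, ω y1 = true ∧ ω y2 = true ∧ y1 k = y2 k ∧ y1 k ≠ a k ∧ y1 l = a l ∧
      y2 l = a l ∧ y1 i ≠ y2 i ∧ y1 j ≠ y2 j)
    (E2 : ∀ b c : Fin n, ∃ y : V n 4, ω y = true ∧ y l = a l ∧ y j ≠ b ∧ y k ≠ a k ∧ y k ≠ c) :
    ∀ x : V n 4, x l = a l → FinalOpen 3 ω x := by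
  obtain ⟨y1, y2, o1, o2, hk12, hk1, hl1, hl2, hi12, hj12⟩ := G1
  set v : V n 4 := update y1 i (y2 i) with hv
  have vi : v i = y2 i := by rw [hv, update_self]
  have vj : v j = y1 j := by rw [hv, update_of_ne hij.symm]
  have vk : v k = y1 k := by rw [hv, update_of_ne hik.symm]
  have vl : v l = a l := by rw [hv, update_of_ne hil.symm, hl1]
  have ey1 : update v i (y1 i) = y1 := by
    rw [hv, update_idem, update_eq_self]
  have ey2 : update v j (y2 j) = y2 := by
    refine ext4 hall ?_ ?_ ?_ ?_
    · rw [update_of_ne hij, vi]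
    · rw [update_self]
    · rw [update_of_ne hjk.symm, vk, hk12]
    · rw [update_of_ne hjl.symm, vl, hl2]
  have fv : FinalOpen 3 ω v := by
    refine open3 k i j (a k) (y1 i) (y2 j) ?_ ?_ ?_ (Or.inl hik.symm) (Or.inl hjk.symm)
      (Or.inl hij) ?_ ?_ ?_
    · rw [vk]; exact hk1.symm
    · rw [vi]; exact hi12
    · rw [vj]; exact hj12.symm
    · exact hP _ (by rw [update_self]) (by rw [update_of_ne hkl.symm, vl])
    · rw [ey1]; exact final_of_init o1
    · rw [ey2]; exact final_of_init o2
  -- the line through v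
  have line1 : ∀ x : V n 4, x j = v j → x k = v k → x l = a l → FinalOpen 3 ω x := by
    intro x hxj hxk hxl
    by_cases e1 : x i = v i
    · have : x = v := ext4 hall e1 hxj hxk (by rw [hxl, vl])
      rw [this]; exact fv
    by_cases e2 : x i = y1 i
    · have : x = y1 := ext4 hall e2 (by rw [hxj, vj]) (by rw [hxk, vk]) (by rw [hxl, hl1])
      rw [this]; exact final_of_init o1
    refine open3 k i i (a k) (v i) (y1 i) ?_ (Ne.symm e1) (Ne.symm e2) (Or.inl hik.symm)
      (Or.inl hik.symm) (Or.inr ?_) ?_ ?_ ?_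
    · rw [hxk, vk]; exact hk1.symm
    · rw [vi]; exact hi12.symm
    · exact hP _ (by rw [update_self]) (by rw [update_of_ne hkl.symm, hxl])
    · have : update x i (v i) = v := ext4 hall (by rw [update_self])
        (by rw [update_of_ne hij.symm, hxj]) (by rw [update_of_ne hik.symm, hxk])
        (by rw [update_of_ne hil.symm, hxl, vl])
      rw [this]; exact fv
    · have : update x i (y1 i) = y1 := ext4 hall (by rw [update_self])
        (by rw [update_of_ne hij.symm, hxj, vj]) (by rw [update_of_ne hik.symm, hxk, vk])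
        (by rw [update_of_ne hil.symm, hxl, hl1])
      rw [this]; exact final_of_init o1
  have hvka : v k ≠ a k := by rw [vk]; exact hk1
  -- the second line of the plane R
  obtain ⟨y, oy, yl, yj, yka, ykv⟩ := E2 (v j) (v k)
  set w : V n 4 := update y j (v j) with hw
  have wi : w i = y i := by rw [hw, update_of_ne hij]
  have wj : w j = v j := by rw [hw, update_self]
  have wk : w k = y k := by rw [hw, update_of_ne hjk.symm]
  have wl : w l = a l := by rw [hw, update_of_ne hjl.symm, yl]
  have fw : FinalOpen 3 ω w := by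
    refine open3 k k j (a k) (v k) (y j) ?_ ?_ ?_ (Or.inr hvka.symm) (Or.inl hjk.symm)
      (Or.inl hjk.symm) ?_ ?_ ?_
    · rw [wk]; exact yka.symm
    · rw [wk]; exact ykv.symm
    · rw [wj]; exact yj
    · exact hP _ (by rw [update_self]) (by rw [update_of_ne hkl.symm, wl])
    · exact line1 _ (by rw [update_of_ne hjk, wj]) (by rw [update_self])
        (by rw [update_of_ne hkl.symm, wl])
    · have : update w j (y j) = y := by rw [hw, update_idem, update_eq_self]
      rw [this]; exact final_of_init oy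
  have line2 : ∀ x : V n 4, x j = v j → x k = y k → x l = a l → FinalOpen 3 ω x := by
    intro x hxj hxk hxl
    by_cases e1 : x i = w i
    · have : x = w := ext4 hall e1 (by rw [hxj, wj]) (by rw [hxk, wk]) (by rw [hxl, wl])
      rw [this]; exact fw
    refine open3 k k i (a k) (v k) (w i) ?_ ?_ (Ne.symm e1) (Or.inr hvka.symm) (Or.inl hik.symm)
      (Or.inl hik.symm) ?_ ?_ ?_
    · rw [hxk]; exact yka.symm
    · rw [hxk]; exact ykv.symm
    · exact hP _ (by rw [update_self]) (by rw [update_of_ne hkl.symm, hxl])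
    · exact line1 _ (by rw [update_of_ne hjk, hxj]) (by rw [update_self])
        (by rw [update_of_ne hkl.symm, hxl])
    · have : update x i (w i) = w := ext4 hall (by rw [update_self])
        (by rw [update_of_ne hij.symm, hxj, wj]) (by rw [update_of_ne hik.symm, hxk, wk])
        (by rw [update_of_ne hil.symm, hxl, wl])
      rw [this]; exact fw
  have planeR : ∀ x : V n 4, x j = v j → x l = a l → FinalOpen 3 ω x := by
    intro x hxj hxl
    by_cases e1 : x k = a k
    · exact hP x e1 hxl
    by_cases e2 : x k = v k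
    · exact line1 x hxj e2 hxl
    by_cases e3 : x k = y k
    · exact line2 x hxj e3 hxl
    refine open3 k k k (a k) (v k) (y k) (Ne.symm e1) (Ne.symm e2) (Ne.symm e3) (Or.inr hvka.symm)
      (Or.inr yka.symm) (Or.inr ykv.symm) ?_ ?_ ?_
    · exact hP _ (by rw [update_self]) (by rw [update_of_ne hkl.symm, hxl])
    · exact line1 _ (by rw [update_of_ne hjk, hxj]) (by rw [update_self])
        (by rw [update_of_ne hkl.symm, hxl])
    · exact line2 _ (by rw [update_of_ne hjk, hxj]) (by rw [update_self])
        (by rw [update_of_ne hkl.symm, hxl])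
  -- a plane parallel to P
  obtain ⟨u, ou, ul, uj, uka, -⟩ := E2 (v j) (v k)
  have line3 : ∀ x : V n 4, x j = u j → x k = u k → x l = a l → FinalOpen 3 ω x := by
    intro x hxj hxk hxl
    by_cases e1 : x i = u i
    · have : x = u := ext4 hall e1 hxj hxk (by rw [hxl, ul])
      rw [this]; exact final_of_init ou
    refine open3 k j i (a k) (v j) (u i) ?_ ?_ (Ne.symm e1) (Or.inl hjk.symm) (Or.inl hik.symm)
      (Or.inl hij.symm) ?_ ?_ ?_
    · rw [hxk]; exact uka.symm
    · rw [hxj]; exact uj.symm
    · exact hP _ (by rw [update_self]) (by rw [update_of_ne hkl.symm, hxl])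
    · exact planeR _ (by rw [update_self]) (by rw [update_of_ne hjl.symm, hxl])
    · have : update x i (u i) = u := ext4 hall (by rw [update_self])
        (by rw [update_of_ne hij.symm, hxj]) (by rw [update_of_ne hik.symm, hxk])
        (by rw [update_of_ne hil.symm, hxl, ul])
      rw [this]; exact final_of_init ou
  have plane2 : ∀ x : V n 4, x k = u k → x l = a l → FinalOpen 3 ω x := by
    intro x hxk hxl
    by_cases e1 : x j = v j
    · exact planeR x e1 hxl
    by_cases e2 : x j = u j
    · exact line3 x e2 hxk hxl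
    refine open3 k j j (a k) (v j) (u j) ?_ (Ne.symm e1) (Ne.symm e2) (Or.inl hjk.symm)
      (Or.inl hjk.symm) (Or.inr uj.symm) ?_ ?_ ?_
    · rw [hxk]; exact uka.symm
    · exact hP _ (by rw [update_self]) (by rw [update_of_ne hkl.symm, hxl])
    · exact planeR _ (by rw [update_self]) (by rw [update_of_ne hjl.symm, hxl])
    · exact line3 _ (by rw [update_self]) (by rw [update_of_ne hjk.symm, hxk])
        (by rw [update_of_ne hjl.symm, hxl])
  intro x hxl
  by_cases e1 : x k = a k
  · exact hP x e1 hxl
  by_cases e2 : x k = u k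
  · exact plane2 x e2 hxl
  by_cases e3 : x j = v j
  · exact planeR x e3 hxl
  refine open3 k k j (a k) (u k) (v j) (Ne.symm e1) (Ne.symm e2) (Ne.symm e3) (Or.inr uka.symm)
    (Or.inl hjk.symm) (Or.inl hjk.symm) ?_ ?_ ?_
  · exact hP _ (by rw [update_self]) (by rw [update_of_ne hkl.symm, hxl])
  · exact plane2 _ (by rw [update_self]) (by rw [update_of_ne hkl.symm, hxl])
  · exact planeR _ (by rw [update_self]) (by rw [update_of_ne hjl.symm, hxl])

/-- two open three dimensional subgraphs fill the torus -/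
theorem fill_all {i j k l : Fin 4} (hij : i ≠ j) (hik : i ≠ k) (hil : i ≠ l) (hjk : j ≠ k)
    (hjl : j ≠ l) (hkl : k ≠ l) (hall : ∀ m : Fin 4, m = i ∨ m = j ∨ m = k ∨ m = l) (a : V n 4)
    (hQ : ∀ x : V n 4, x l = a l → FinalOpen 3 ω x)
    (hQ' : ∀ x : V n 4, x k = a k → FinalOpen 3 ω x)
    (E : ∃ u : V n 4, ω u = true ∧ u k ≠ a k ∧ u l ≠ a l) :
    ∀ x : V n 4, FinalOpen 3 ω x := by
  obtain ⟨u, ou, uk, ul⟩ := E
  have line : ∀ x : V n 4, x j = u j → x k = u k → x l = u l → FinalOpen 3 ω x := by
    intro x hxj hxk hxl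
    by_cases e1 : x i = u i
    · have : x = u := ext4 hall e1 hxj hxk hxl
      rw [this]; exact final_of_init ou
    refine open3 k l i (a k) (a l) (u i) ?_ ?_ (Ne.symm e1) (Or.inl hkl) (Or.inl hik.symm)
      (Or.inl hil.symm) ?_ ?_ ?_
    · rw [hxk]; exact uk.symm
    · rw [hxl]; exact ul.symm
    · exact hQ' _ (by rw [update_self])
    · exact hQ _ (by rw [update_self])
    · have : update x i (u i) = u := ext4 hall (by rw [update_self])
        (by rw [update_of_ne hij.symm, hxj]) (by rw [update_of_ne hik.symm, hxk])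
        (by rw [update_of_ne hil.symm, hxl])
      rw [this]; exact final_of_init ou
  have plane : ∀ x : V n 4, x k = u k → x l = u l → FinalOpen 3 ω x := by
    intro x hxk hxl
    by_cases e1 : x j = u j
    · exact line x e1 hxk hxl
    refine open3 k l j (a k) (a l) (u j) ?_ ?_ (Ne.symm e1) (Or.inl hkl) (Or.inl hjk.symm)
      (Or.inl hjl.symm) ?_ ?_ ?_
    · rw [hxk]; exact uk.symm
    · rw [hxl]; exact ul.symm
    · exact hQ' _ (by rw [update_self])
    · exact hQ _ (by rw [update_self])
    · exact line _ (by rw [update_self]) (by rw [update_of_ne hjk.symm, hxk])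
        (by rw [update_of_ne hjl.symm, hxl])
  have three : ∀ x : V n 4, x l = u l → FinalOpen 3 ω x := by
    intro x hxl
    by_cases e1 : x k = a k
    · exact hQ' x e1
    by_cases e2 : x k = u k
    · exact plane x e2 hxl
    refine open3 l k k (a l) (a k) (u k) ?_ (Ne.symm e1) (Ne.symm e2) (Or.inl hkl.symm)
      (Or.inl hkl.symm) (Or.inr uk.symm) ?_ ?_ ?_
    · rw [hxl]; exact ul.symm
    · exact hQ _ (by rw [update_self])
    · exact hQ' _ (by rw [update_self])
    · exact plane _ (by rw [update_self]) (by rw [update_of_ne hkl.symm, hxl])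
  intro x
  by_cases e1 : x l = a l
  · exact hQ x e1
  by_cases e2 : x l = u l
  · exact three x e2
  by_cases e3 : x k = a k
  · exact hQ' x e3
  refine open3 l l k (a l) (u l) (a k) (Ne.symm e1) (Ne.symm e2) (Ne.symm e3) (Or.inr ul.symm)
    (Or.inl hkl.symm) (Or.inl hkl.symm) ?_ ?_ ?_
  · exact hQ _ (by rw [update_self])
  · exact three _ (by rw [update_self])
  · exact hQ' _ (by rw [update_self])

end Pool.Agent.K6.H74.Ham
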