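import Mathlib
import Pool.Agent.K6.H74.HamFill

/-!
Bootstrap percolation on Hamming tori: monotonicity in the density, unions of independent
configurations, probabilities of some simple events.
-/

set_option autoImplicit false

open Finset MeasureTheory ProbabilityTheory
open scoped ENNReal

namespace Pool.Agent.K6.H74.Ham

open Pool.Agent.R958.Ham

variable {n d : ℕ}

/-- the union of two configurations -/
def orC (ω ω' : V n d → Bool) : V n d → Bool := fun v => ω v || ω' v

lemma law_isProb {p : ℝ} (h0 : 0 ≤ p) (h1 : p ≤ 1) : IsProbabilityMeasure (law n d p) := by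
  have := siteLaw_prob h0 h1
  unfold law; infer_instance

lemma site_or {r s : ℝ} (hr0 : 0 ≤ r) (hr1 : r ≤ 1) (hs0 : 0 ≤ s) (hs1 : s ≤ 1) :
    ((siteLaw r).prod (siteLaw s)).map (fun q : Bool × Bool => q.1 || q.2) =
      siteLaw (r + s - r * s) := by
  have i1 := siteLaw_prob hr0 hr1
  have i2 := siteLaw_prob hs0 hs1
  have hc0 : 0 ≤ r + s - r * s := by nlinarith
  have hc1 : r + s - r * s ≤ 1 := by nlinarith
  have i3 := siteLaw_prob hc0 hc1
  have hf : ((siteLaw r).prod (siteLaw s)).map (fun q : Bool × Bool => q.1 || q.2) {false} =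
      siteLaw (r + s - r * s) {false} := by
    rw [Measure.map_apply (measurable_of_countable _) (measurableSet_singleton _)]
    have e : (fun q : Bool × Bool => q.1 || q.2) ⁻¹' {false} = ({false} : Set Bool) ×ˢ {false} := by
      ext ⟨x, y⟩
      cases x <;> cases y <;> simp
    rw [e, Measure.prod_prod, siteLaw_false, siteLaw_false, siteLaw_false,
      ← ENNReal.ofReal_mul (by linarith)]
    congr 1
    ring
  have i4 : IsProbabilityMeasure (((siteLaw r).prod (siteLaw s)).map
      (fun q : Bool × Bool => q.1 || q.2)) :=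
    Measure.isProbabilityMeasure_map (measurable_of_countable _).aemeasurable
  refine Measure.ext_of_singleton fun b => ?_
  cases b
  · exact hf
  · have e : ({true} : Set Bool) = {false}ᶜ := by
      ext x; cases x <;> simp
    rw [e, prob_compl_eq_one_sub (measurableSet_singleton _),
      prob_compl_eq_one_sub (measurableSet_singleton _), hf]

lemma law_or {r s : ℝ} (hr0 : 0 ≤ r) (hr1 : r ≤ 1) (hs0 : 0 ≤ s) (hs1 : s ≤ 1) :
    ((law n d r).prod (law n d s)).map (fun q => orC q.1 q.2) = law n d (r + s - r * s) := by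
  have i1 := siteLaw_prob hr0 hr1
  have i2 := siteLaw_prob hs0 hs1
  have h := measurePreserving_arrowProdEquivProdArrow Bool Bool (V n d) (fun _ => siteLaw r)
    (fun _ => siteLaw s)
  have e1 : (law n d r).prod (law n d s) = (Measure.pi fun _ : V n d =>
      (siteLaw r).prod (siteLaw s)).map (MeasurableEquiv.arrowProdEquivProdArrow Bool Bool (V n d)) :=
    h.map_eq.symm
  rw [e1, Measure.map_map (measurable_of_countable _) h.measurable]
  have e2 : ((fun q : (V n d → Bool) × (V n d → Bool) => orC q.1 q.2) ∘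
      (MeasurableEquiv.arrowProdEquivProdArrow Bool Bool (V n d))) =
      fun (x : V n d → Bool × Bool) (i : V n d) => ((x i).1 || (x i).2) := by
    funext x
    rfl
  have i3 : ∀ _ : V n d, SigmaFinite (((siteLaw r).prod (siteLaw s)).map
      (fun q : Bool × Bool => q.1 || q.2)) := by
    intro _
    rw [site_or hr0 hr1 hs0 hs1]
    have hc0 : 0 ≤ r + s - r * s := by nlinarith
    have hc1 : r + s - r * s ≤ 1 := by nlinarith
    have := siteLaw_prob hc0 hc1
    infer_instance
  rw [e2, Measure.pi_map_pi (f := fun _ : V n d => fun q : Bool × Bool => q.1 || q.2)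
    (fun _ => (measurable_of_countable _).aemeasurable)]
  simp only [site_or hr0 hr1 hs0 hs1]
  rfl

lemma law_or_apply {r s : ℝ} (hr0 : 0 ≤ r) (hr1 : r ≤ 1) (hs0 : 0 ≤ s) (hs1 : s ≤ 1)
    (E : Set (V n d → Bool)) :
    law n d (r + s - r * s) E = ∫⁻ ω, law n d s {ω' | orC ω ω' ∈ E} ∂(law n d r) := by
  have i1 := law_isProb (n := n) (d := d) hr0 hr1
  have i2 := law_isProb (n := n) (d := d) hs0 hs1
  rw [← law_or hr0 hr1 hs0 hs1, Measure.map_apply (measurable_of_countable _)
    (Set.toFinite _).measurableSet, Measure.prod_apply (Set.toFinite _).measurableSet]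
  rfl

/-- an increasing event -/
def Incr (E : Set (V n d → Bool)) : Prop :=
  ∀ ω ω' : V n d → Bool, (∀ v, ω v = true → ω' v = true) → ω ∈ E → ω' ∈ E

lemma incr_or_left {E : Set (V n d → Bool)} (hE : Incr E) {ω : V n d → Bool} (h : ω ∈ E)
    (ω' : V n d → Bool) : orC ω ω' ∈ E := hE ω _ (fun v hv => by simp [orC, hv]) h

lemma incr_or_right {E : Set (V n d → Bool)} (hE : Incr E) {ω' : V n d → Bool} (h : ω' ∈ E)
    (ω : V n d → Bool) : orC ω ω' ∈ E := hE ω' _ (fun v hv => by simp [orC, hv]) h

lemma split_param {r s : ℝ} (hr0 : 0 ≤ r) (hrs : r < s) (hs1 : s ≤ 1) :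
    ∃ t : ℝ, 0 < t ∧ t ≤ 1 ∧ s = r + t - r * t := by
  have h1 : 0 < 1 - r := by linarith
  refine ⟨(s - r) / (1 - r), div_pos (by linarith) h1, ?_, ?_⟩
  · rw [div_le_one h1]; linarith
  · field_simp
    ring

lemma law_mono {E : Set (V n d → Bool)} (hE : Incr E) {r s : ℝ} (hr0 : 0 ≤ r) (hrs : r ≤ s)
    (hs1 : s ≤ 1) : law n d r E ≤ law n d s E := by
  rcases hrs.lt_or_eq with h | h
  · obtain ⟨t, ht0, ht1, ht⟩ := split_param hr0 h hs1
    have i2 := law_isProb (n := n) (d := d) ht0.le ht1
    rw [ht, law_or_apply hr0 (by linarith) ht0.le ht1 E]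
    calc law n d r E = ∫⁻ ω, E.indicator 1 ω ∂(law n d r) :=
          (lintegral_indicator_one (Set.toFinite _).measurableSet).symm
      _ ≤ _ := by
        refine lintegral_mono fun ω => ?_
        by_cases hω : ω ∈ E
        · have : {ω' : V n d → Bool | orC ω ω' ∈ E} = Set.univ :=
            Set.eq_univ_of_forall fun ω' => incr_or_left hE hω ω'
          rw [this, measure_univ, Set.indicator_of_mem hω]
          rfl
        · rw [Set.indicator_of_notMem hω]
          exact bot_le
  · rw [h]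

lemma law_strict {E : Set (V n d → Bool)} (hE : Incr E) {r s : ℝ} (hr0 : 0 ≤ r) (hrs : r < s)
    (hs1 : s ≤ 1) (hne : E.Nonempty) (h1 : law n d r E < 1) : law n d r E < law n d s E := by
  obtain ⟨t, ht0, ht1, ht⟩ := split_param hr0 hrs hs1
  have i1 := law_isProb (n := n) (d := d) hr0 (by linarith : r ≤ 1)
  have i2 := law_isProb (n := n) (d := d) ht0.le ht1
  have hall : (fun _ : V n d => true) ∈ E := by
    obtain ⟨ω, hω⟩ := hne
    exact hE ω _ (fun _ _ => rfl) hω
  set ε : ℝ≥0∞ := law n d t {ω | ∀ x ∈ (univ : Finset (V n d)), ω x = true} with hε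
  have hε0 : ε ≠ 0 := by
    rw [hε, law_all ht0.le ht1]
    exact pow_ne_zero _ (by rw [Ne, ENNReal.ofReal_eq_zero]; linarith)
  have hlow : law n d r E + ε * law n d r Eᶜ ≤ law n d s E := by
    rw [ht, law_or_apply hr0 (by linarith) ht0.le ht1 E]
    calc law n d r E + ε * law n d r Eᶜ
        = ∫⁻ ω, E.indicator 1 ω + ε * Eᶜ.indicator 1 ω ∂(law n d r) := by
          rw [lintegral_add_left (measurable_of_countable _),
            lintegral_const_mul _ (measurable_of_countable _),
            lintegral_indicator_one (Set.toFinite _).measurableSet,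
            lintegral_indicator_one (Set.toFinite _).measurableSet]
      _ ≤ _ := by
        refine lintegral_mono fun ω => ?_
        by_cases hω : ω ∈ E
        · have : {ω' : V n d → Bool | orC ω ω' ∈ E} = Set.univ :=
            Set.eq_univ_of_forall fun ω' => incr_or_left hE hω ω'
          rw [this, measure_univ, Set.indicator_of_mem hω,
            Set.indicator_of_notMem (by simpa using hω)]
          simp
        · rw [Set.indicator_of_notMem hω, Set.indicator_of_mem (by simpa using hω)]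
          simp only [Pi.one_apply, mul_one, zero_add]
          refine measure_mono fun ω' hω' => ?_
          have : orC ω ω' = fun _ => true := by
            funext v
            have := hω' v (mem_univ v)
            simp [orC, this]
          show orC ω ω' ∈ E
          rw [this]
          exact hall
  refine lt_of_lt_of_le ?_ hlow
  refine ENNReal.lt_add_right (measure_ne_top _ _) (mul_ne_zero hε0 ?_)
  rw [prob_compl_eq_one_sub (Set.toFinite _).measurableSet]
  exact (tsub_pos_of_lt h1).ne'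

lemma step_mono {θ : ℕ} {ω ω' : V n d → Bool} (h : ∀ v, ω v = true → ω' v = true) (v : V n d)
    (hv : step θ ω v = true) : step θ ω' v = true := by
  rw [step, Bool.or_eq_true, decide_eq_true_iff] at hv ⊢
  rcases hv with hv | hv
  · exact Or.inl (h v hv)
  · refine Or.inr (hv.trans (card_le_card fun w hw => ?_))
    rw [mem_filter] at hw ⊢
    exact ⟨mem_univ _, hw.2.1, h w hw.2.2⟩

lemma final_mono {θ : ℕ} {ω ω' : V n d → Bool} (h : ∀ v, ω v = true → ω' v = true) {v : V n d}
    (hv : FinalOpen θ ω v) : FinalOpen θ ω' v := by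
  obtain ⟨j, hj⟩ := hv
  refine ⟨j, ?_⟩
  have key : ∀ j : ℕ, ∀ v, (step θ)^[j] ω v = true → (step θ)^[j] ω' v = true := by
    intro j
    induction j with
    | zero => exact h
    | succ j ih =>
      intro v hv
      rw [Function.iterate_succ_apply'] at hv ⊢
      exact step_mono ih v hv
  exact key j v hj

lemma incr_sub (θ i : ℕ) : Incr {ω : V n d → Bool | SubgraphOpen θ i ω} := by
  rintro ω ω' h ⟨J, hJ, a, ha⟩
  exact ⟨J, hJ, a, fun x hx => final_mono h (ha x hx)⟩

variable {p : ℝ}

lemma law_false (h0 : 0 ≤ p) (h1 : p ≤ 1) (S : Finset (V n d)) :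
    law n d p {ω | ∀ x ∈ S, ω x = false} = ENNReal.ofReal (1 - p) ^ S.card := by
  classical
  have := siteLaw_prob h0 h1
  have e : {ω : V n d → Bool | ∀ x ∈ S, ω x = false} =
      Set.pi Set.univ (fun x => if x ∈ S then {false} else Set.univ) := by
    ext ω
    simp only [Set.mem_ofPred_eq, Set.mem_pi, Set.mem_univ, true_implies]
    refine forall_congr' fun x => ?_
    by_cases hx : x ∈ S <;> simp [hx]
  rw [law, e, Measure.pi_pi]
  have h2 : ∀ x : V n d, siteLaw p (if x ∈ S then {false} else Set.univ) =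
      if x ∈ S then ENNReal.ofReal (1 - p) else 1 := by
    intro x
    split_ifs
    · exact siteLaw_false
    · exact measure_univ
  simp_rw [h2]
  rw [prod_ite_mem]
  simp

lemma law_false_le (h0 : 0 ≤ p) (h1 : p ≤ 1) (S : Finset (V n d)) {m : ℕ} (hm : m ≤ S.card) :
    law n d p {ω | ∀ x ∈ S, ω x = false} ≤ ENNReal.ofReal ((1 - p) ^ m) := by
  rw [law_false h0 h1, ENNReal.ofReal_pow (by linarith)]
  exact pow_le_pow_right_of_le_one' (by
    rw [← ENNReal.ofReal_one]
    exact ENNReal.ofReal_le_ofReal (by linarith)) hm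

/-- one pair of disjoint sets -/
lemma pair_one (h0 : 0 ≤ p) (h1 : p ≤ 1) {A B : Finset (V n d)} (hAB : Disjoint A B) {m : ℕ}
    (hA : m ≤ A.card) (hB : m ≤ B.card) :
    law n d p {ω | (∀ x ∈ A, ω x = false) ∨ (∀ x ∈ B, ω x = false)} ≤
      ENNReal.ofReal (1 - (1 - (1 - p) ^ m) ^ 2) := by
  have hsl := siteLaw_prob h0 h1
  have hprob := law_isProb (n := n) (d := d) h0 h1
  have hz0 : 0 ≤ (1 - p) ^ m := pow_nonneg (by linarith) _
  have hz1 : (1 - p) ^ m ≤ 1 := pow_le_one₀ (by linarith) (by linarith)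
  have d1 : Dep A (fun ω : V n d → Bool => ¬ ∀ x ∈ A, ω x = false) := by
    intro ω ω' h
    rw [eq_iff_iff]
    exact not_congr (forall₂_congr fun x hx => by rw [h x hx])
  have d2 : Dep B (fun ω : V n d → Bool => ¬ ∀ x ∈ B, ω x = false) := by
    intro ω ω' h
    rw [eq_iff_iff]
    exact not_congr (forall₂_congr fun x hx => by rw [h x hx])
  have hind : IndepFun (fun ω : V n d → Bool => ¬ ∀ x ∈ A, ω x = false)
      (fun ω : V n d → Bool => ¬ ∀ x ∈ B, ω x = false) (law n d p) :=
    Dep.indep (m := fun _ => siteLaw p) hAB d1 d2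
  rw [indepFun_iff_measure_inter_preimage_eq_mul] at hind
  have h3 := hind {True} {True} (measurableSet_singleton _) (measurableSet_singleton _)
  have e1 : ∀ S : Finset (V n d), (fun ω : V n d → Bool => ¬ ∀ x ∈ S, ω x = false) ⁻¹' {True} =
      {ω | ∀ x ∈ S, ω x = false}ᶜ := by
    intro S
    ext ω; simp
  rw [e1, e1] at h3
  have e2 : {ω : V n d → Bool | (∀ x ∈ A, ω x = false) ∨ (∀ x ∈ B, ω x = false)} =
      ({ω : V n d → Bool | ∀ x ∈ A, ω x = false}ᶜ ∩ {ω | ∀ x ∈ B, ω x = false}ᶜ)ᶜ := by
    ext ω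
    simp only [Set.mem_ofPred_eq, Set.mem_compl_iff, Set.mem_inter_iff, not_and, not_not]
    tauto
  rw [e2, prob_compl_eq_one_sub (Set.toFinite _).measurableSet, h3,
    prob_compl_eq_one_sub (Set.toFinite _).measurableSet,
    prob_compl_eq_one_sub (Set.toFinite _).measurableSet,
    ENNReal.ofReal_sub _ (by positivity), ENNReal.ofReal_one,
    ENNReal.ofReal_pow (by linarith), sq, ENNReal.ofReal_sub _ hz0, ENNReal.ofReal_one]
  refine tsub_le_tsub_left ?_ _
  exact mul_le_mul' (tsub_le_tsub_left (law_false_le h0 h1 A hA) _)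
    (tsub_le_tsub_left (law_false_le h0 h1 B hB) _)

/-- many disjoint pairs of disjoint sets -/
lemma pair_fail (h0 : 0 ≤ p) (h1 : p ≤ 1) {ι : Type} [DecidableEq ι] (T : Finset ι)
    (A B : ι → Finset (V n d)) {m : ℕ} (hAB : ∀ t ∈ T, Disjoint (A t) (B t))
    (hA : ∀ t ∈ T, m ≤ (A t).card) (hB : ∀ t ∈ T, m ≤ (B t).card)
    (hdis : ∀ t ∈ T, ∀ s ∈ T, t ≠ s → ∀ x, (x ∈ A t ∨ x ∈ B t) → ¬ (x ∈ A s ∨ x ∈ B s)) :
    law n d p {ω | ∀ t ∈ T, (∀ x ∈ A t, ω x = false) ∨ (∀ x ∈ B t, ω x = false)} ≤
      ENNReal.ofReal (1 - (1 - (1 - p) ^ m) ^ 2) ^ T.card := by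
  classical
  have hsl := siteLaw_prob h0 h1
  have hprob := law_isProb (n := n) (d := d) h0 h1
  induction T using Finset.induction_on with
  | empty => simp
  | insert b T hb ih =>
    have ih' := ih (fun t ht => hAB t (mem_insert_of_mem ht)) (fun t ht => hA t (mem_insert_of_mem ht))
      (fun t ht => hB t (mem_insert_of_mem ht))
      (fun t ht s hs => hdis t (mem_insert_of_mem ht) s (mem_insert_of_mem hs))
    have d1 : Dep (A b ∪ B b) (fun ω : V n d → Bool =>
        (∀ x ∈ A b, ω x = false) ∨ (∀ x ∈ B b, ω x = false)) := by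
      intro ω ω' h
      rw [eq_iff_iff]
      exact or_congr (forall₂_congr fun x hx => by rw [h x (mem_union_left _ hx)])
        (forall₂_congr fun x hx => by rw [h x (mem_union_right _ hx)])
    have d2 : Dep (T.biUnion fun t => A t ∪ B t) (fun ω : V n d → Bool =>
        ∀ t ∈ T, (∀ x ∈ A t, ω x = false) ∨ (∀ x ∈ B t, ω x = false)) := by
      intro ω ω' h
      rw [eq_iff_iff]
      refine forall₂_congr fun t ht => or_congr (forall₂_congr fun x hx => ?_)
        (forall₂_congr fun x hx => ?_)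
      · rw [h x (mem_biUnion.2 ⟨t, ht, mem_union_left _ hx⟩)]
      · rw [h x (mem_biUnion.2 ⟨t, ht, mem_union_right _ hx⟩)]
    have hdj : Disjoint (A b ∪ B b) (T.biUnion fun t => A t ∪ B t) := by
      rw [disjoint_left]
      intro x hx hx'
      rw [mem_biUnion] at hx'
      obtain ⟨t, ht, hxt⟩ := hx'
      exact hdis b (mem_insert_self _ _) t (mem_insert_of_mem ht) (fun h => hb (h ▸ ht)) x
        (mem_union.1 hx) (mem_union.1 hxt)
    have hind : IndepFun (fun ω : V n d → Bool =>
        (∀ x ∈ A b, ω x = false) ∨ (∀ x ∈ B b, ω x = false))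
        (fun ω : V n d → Bool => ∀ t ∈ T, (∀ x ∈ A t, ω x = false) ∨ (∀ x ∈ B t, ω x = false))
        (law n d p) :=
      Dep.indep (m := fun _ => siteLaw p) hdj d1 d2
    rw [indepFun_iff_measure_inter_preimage_eq_mul] at hind
    have h3 := hind {True} {True} (measurableSet_singleton _) (measurableSet_singleton _)
    have e1 : (fun ω : V n d → Bool => (∀ x ∈ A b, ω x = false) ∨ (∀ x ∈ B b, ω x = false)) ⁻¹'
        {True} = {ω | (∀ x ∈ A b, ω x = false) ∨ (∀ x ∈ B b, ω x = false)} := by
      ext ω; simp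
    have e2 : (fun ω : V n d → Bool => ∀ t ∈ T, (∀ x ∈ A t, ω x = false) ∨
        (∀ x ∈ B t, ω x = false)) ⁻¹' {True} =
        {ω | ∀ t ∈ T, (∀ x ∈ A t, ω x = false) ∨ (∀ x ∈ B t, ω x = false)} := by
      ext ω; simp
    rw [e1, e2] at h3
    have e3 : {ω : V n d → Bool | ∀ t ∈ insert b T, (∀ x ∈ A t, ω x = false) ∨
        (∀ x ∈ B t, ω x = false)} =
        {ω | (∀ x ∈ A b, ω x = false) ∨ (∀ x ∈ B b, ω x = false)} ∩
        {ω | ∀ t ∈ T, (∀ x ∈ A t, ω x = false) ∨ (∀ x ∈ B t, ω x = false)} := by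
      ext ω
      simp
    rw [e3, h3, card_insert_of_notMem hb, pow_succ, mul_comm]
    exact mul_le_mul' ih' (pair_one h0 h1 (hAB b (mem_insert_self _ _))
      (hA b (mem_insert_self _ _)) (hB b (mem_insert_self _ _)))

end Pool.Agent.K6.H74.Ham
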