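import Mathlib
import Pool.Agent.K6.H74.HamProb

/-!
Bootstrap percolation with threshold three on the four dimensional Hamming torus: the critical
values for an open plane and for the whole torus differ by a factor of at most three.
-/

set_option autoImplicit false

open Finset MeasureTheory ProbabilityTheory Function
open scoped ENNReal

namespace Pool.Agent.K6.H74.Ham

open Pool.Agent.R958.Ham

variable {n : ℕ}

lemma univ4 {i j k l : Fin 4} (hall : ∀ m : Fin 4, m = i ∨ m = j ∨ m = k ∨ m = l) :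
    (univ : Finset (Fin 4)) = {i, j, k, l} := by
  ext m
  simpa using hall m

lemma prod4 {i j k l : Fin 4} (hij : i ≠ j) (hik : i ≠ k) (hil : i ≠ l) (hjk : j ≠ k)
    (hjl : j ≠ l) (hkl : k ≠ l) (hall : ∀ m : Fin 4, m = i ∨ m = j ∨ m = k ∨ m = l)
    (f : Fin 4 → ℕ) : ∏ m, f m = f i * (f j * (f k * f l)) := by
  rw [univ4 hall, prod_insert (by simp [hij, hik, hil]), prod_insert (by simp [hjk, hjl]),
    prod_insert (by simp [hkl]), prod_singleton]

/-- the bound for the probability that a plane does not fill the torus -/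
noncomputable def failBd (n : ℕ) (p : ℝ) : ℝ :=
  2 * (1 - (1 - (1 - p) ^ ((n / 2) * (n / 2))) ^ 2) ^ (n - 1) +
    (2 * n ^ 2 + 1) * (1 - p) ^ (n * ((n - 1) * (n - 2)))

variable {p : ℝ}

lemma g1_prob (h0 : 0 ≤ p) (h1 : p ≤ 1) {i j k l : Fin 4} (hij : i ≠ j) (hik : i ≠ k) (hil : i ≠ l)
    (hjk : j ≠ k) (hjl : j ≠ l) (hkl : k ≠ l)
    (hall : ∀ m : Fin 4, m = i ∨ m = j ∨ m = k ∨ m = l) (a : V n 4) :
    law n 4 p {ω | ¬ ∃ y1 y2 : V n 4, ω y1 = true ∧ ω y2 = true ∧ y1 k = y2 k ∧ y1 k ≠ a k ∧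
      y1 l = a l ∧ y2 l = a l ∧ y1 i ≠ y2 i ∧ y1 j ≠ y2 j} ≤
      ENNReal.ofReal ((1 - (1 - (1 - p) ^ ((n / 2) * (n / 2))) ^ 2) ^ (n - 1)) := by
  classical
  set lo : Finset (Fin n) := univ.filter fun t => t.val < n / 2 with hlo
  set hi : Finset (Fin n) := univ.filter fun t => ¬ t.val < n / 2 with hhi
  have clo : lo.card = n / 2 := by
    rw [hlo, Fin.card_filter_val_lt]
    omega
  have chi : n / 2 ≤ hi.card := by
    have h2 : lo.card + hi.card = n := by
      have := card_filter_add_card_filter_not (s := (univ : Finset (Fin n)))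
        (fun t : Fin n => t.val < n / 2)
      rw [card_univ, Fintype.card_fin] at this
      exact this
    omega
  set A : Fin n → Finset (V n 4) := fun t => Fintype.piFinset fun m =>
    if m = i ∨ m = j then lo else if m = k then {t} else {a l} with hA
  set B : Fin n → Finset (V n 4) := fun t => Fintype.piFinset fun m =>
    if m = i ∨ m = j then hi else if m = k then {t} else {a l} with hB
  have memA : ∀ t x, x ∈ A t → x i ∈ lo ∧ x j ∈ lo ∧ x k = t ∧ x l = a l := by
    intro t x hx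
    rw [hA, Fintype.mem_piFinset] at hx
    have e1 := hx i
    have e2 := hx j
    have e3 := hx k
    have e4 := hx l
    simp only [true_or, or_true, if_true] at e1 e2
    rw [if_neg (by simp [hik.symm, hjk.symm]), if_pos rfl, mem_singleton] at e3
    rw [if_neg (by simp [hil.symm, hjl.symm]), if_neg hkl.symm, mem_singleton] at e4
    exact ⟨e1, e2, e3, e4⟩
  have memB : ∀ t x, x ∈ B t → x i ∈ hi ∧ x j ∈ hi ∧ x k = t ∧ x l = a l := by
    intro t x hx
    rw [hB, Fintype.mem_piFinset] at hx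
    have e1 := hx i
    have e2 := hx j
    have e3 := hx k
    have e4 := hx l
    simp only [true_or, or_true, if_true] at e1 e2
    rw [if_neg (by simp [hik.symm, hjk.symm]), if_pos rfl, mem_singleton] at e3
    rw [if_neg (by simp [hil.symm, hjl.symm]), if_neg hkl.symm, mem_singleton] at e4
    exact ⟨e1, e2, e3, e4⟩
  have lohi : ∀ t, t ∈ lo → t ∉ hi := by
    intro t ht ht'
    rw [hlo, mem_filter] at ht
    rw [hhi, mem_filter] at ht'
    exact ht'.2 ht.2
  have cA : ∀ t, (A t).card = (n / 2) * ((n / 2) * (1 * 1)) := by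
    intro t
    rw [hA, Fintype.card_piFinset, prod4 hij hik hil hjk hjl hkl hall]
    rw [if_pos (Or.inl rfl), if_pos (Or.inr rfl), if_neg (by simp [hik.symm, hjk.symm]),
      if_pos rfl, if_neg (by simp [hil.symm, hjl.symm]), if_neg hkl.symm, clo, card_singleton,
      card_singleton]
  have cB : ∀ t, (B t).card = hi.card * (hi.card * (1 * 1)) := by
    intro t
    rw [hB, Fintype.card_piFinset, prod4 hij hik hil hjk hjl hkl hall]
    rw [if_pos (Or.inl rfl), if_pos (Or.inr rfl), if_neg (by simp [hik.symm, hjk.symm]),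
      if_pos rfl, if_neg (by simp [hil.symm, hjl.symm]), if_neg hkl.symm, card_singleton,
      card_singleton]
  have key := pair_fail (n := n) (d := 4) h0 h1 ((univ : Finset (Fin n)).erase (a k)) A B
    (m := (n / 2) * (n / 2)) ?_ ?_ ?_ ?_
  · have hz0 : 0 ≤ (1 - p) ^ ((n / 2) * (n / 2)) := pow_nonneg (by linarith) _
    have hz1 : (1 - p) ^ ((n / 2) * (n / 2)) ≤ 1 := pow_le_one₀ (by linarith) (by linarith)
    rw [card_erase_of_mem (mem_univ _), card_univ, Fintype.card_fin,
      ← ENNReal.ofReal_pow (by nlinarith)] at key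
    refine (measure_mono ?_).trans key
    intro ω hω t ht
    rw [mem_erase] at ht
    by_contra hcon
    rw [not_or] at hcon
    obtain ⟨c1, c2⟩ := hcon
    push Not at c1 c2
    obtain ⟨x, hx, ox⟩ := c1
    obtain ⟨y, hy, oy⟩ := c2
    obtain ⟨x1, x2, x3, x4⟩ := memA t x hx
    obtain ⟨y1, y2, y3, y4⟩ := memB t y hy
    refine hω ⟨x, y, by simpa using ox, by simpa using oy, by rw [x3, y3], by rw [x3]; exact ht.1,
      x4, y4, ?_, ?_⟩
    · intro h; rw [h] at x1; exact lohi _ x1 y1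
    · intro h; rw [h] at x2; exact lohi _ x2 y2
  · intro t _
    rw [disjoint_left]
    intro x hx hx'
    exact lohi _ (memA t x hx).1 (memB t x hx').1
  · intro t _
    rw [cA]
    simp
  · intro t _
    rw [cB]
    calc n / 2 * (n / 2) ≤ hi.card * hi.card := Nat.mul_le_mul chi chi
      _ = _ := by ring
  · intro t _ s _ hts x hx hx'
    have e1 : x k = t := by
      rcases hx with h | h
      · exact (memA t x h).2.2.1
      · exact (memB t x h).2.2.1
    have e2 : x k = s := by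
      rcases hx' with h | h
      · exact (memA s x h).2.2.1
      · exact (memB s x h).2.2.1
    exact hts (e1.symm.trans e2)

lemma e2_prob (h0 : 0 ≤ p) (h1 : p ≤ 1) {i j k l : Fin 4} (hij : i ≠ j) (hik : i ≠ k) (hil : i ≠ l)
    (hjk : j ≠ k) (hjl : j ≠ l) (hkl : k ≠ l)
    (hall : ∀ m : Fin 4, m = i ∨ m = j ∨ m = k ∨ m = l) (a : V n 4) :
    law n 4 p {ω | ¬ ∀ b c : Fin n, ∃ y : V n 4, ω y = true ∧ y l = a l ∧ y j ≠ b ∧ y k ≠ a k ∧
      y k ≠ c} ≤ ENNReal.ofReal (n ^ 2 * (1 - p) ^ (n * ((n - 1) * (n - 2)))) := by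
  classical
  set Y : Fin n × Fin n → Finset (V n 4) := fun bc => Fintype.piFinset fun m =>
    if m = i then univ else if m = j then univ.erase bc.1 else if m = k then
      (univ.erase (a k)).erase bc.2 else {a l} with hY
  have memY : ∀ bc x, x ∈ Y bc → x j ≠ bc.1 ∧ x k ≠ a k ∧ x k ≠ bc.2 ∧ x l = a l := by
    intro bc x hx
    rw [hY, Fintype.mem_piFinset] at hx
    have e2 := hx j
    have e3 := hx k
    have e4 := hx l
    rw [if_neg hij.symm, if_pos rfl, mem_erase] at e2
    rw [if_neg hik.symm, if_neg hjk.symm, if_pos rfl, mem_erase, mem_erase] at e3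
    rw [if_neg hil.symm, if_neg hjl.symm, if_neg hkl.symm, mem_singleton] at e4
    exact ⟨e2.1, e3.2.1, e3.1, e4⟩
  have cY : ∀ bc, n * ((n - 1) * (n - 2)) ≤ (Y bc).card := by
    intro bc
    rw [hY, Fintype.card_piFinset, prod4 hij hik hil hjk hjl hkl hall]
    rw [if_pos rfl, if_neg hij.symm, if_pos rfl, if_neg hik.symm, if_neg hjk.symm, if_pos rfl,
      if_neg hil.symm, if_neg hjl.symm, if_neg hkl.symm, card_singleton, card_univ,
      Fintype.card_fin, card_erase_of_mem (mem_univ _), card_univ, Fintype.card_fin, mul_one]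
    refine Nat.mul_le_mul_left _ (Nat.mul_le_mul_left _ ?_)
    have := pred_card_le_card_erase (s := (univ : Finset (Fin n)).erase (a k)) (a := bc.2)
    rw [card_erase_of_mem (mem_univ _), card_univ, Fintype.card_fin] at this
    omega
  have hsub : {ω : V n 4 → Bool | ¬ ∀ b c : Fin n, ∃ y : V n 4, ω y = true ∧ y l = a l ∧ y j ≠ b ∧
      y k ≠ a k ∧ y k ≠ c} ⊆ ⋃ bc ∈ (univ : Finset (Fin n × Fin n)),
        {ω | ∀ x ∈ Y bc, ω x = false} := by
    intro ω hω
    simp only [Set.mem_ofPred_eq, not_forall] at hω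
    obtain ⟨b, c, hbc⟩ := hω
    rw [Set.mem_iUnion₂]
    refine ⟨(b, c), mem_univ _, fun x hx => ?_⟩
    obtain ⟨x1, x2, x3, x4⟩ := memY _ x hx
    by_contra hcon
    exact hbc ⟨x, by simpa using hcon, x4, x1, x2, x3⟩
  refine (measure_mono hsub).trans ((measure_biUnion_finset_le _ _).trans ?_)
  refine (sum_le_sum fun bc _ => law_false_le h0 h1 (Y bc) (cY bc)).trans ?_
  rw [sum_const, nsmul_eq_mul, card_univ, Fintype.card_prod, Fintype.card_fin,
    ENNReal.ofReal_mul (by positivity)]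
  refine mul_le_mul' (le_of_eq ?_) le_rfl
  rw [ENNReal.ofReal_pow (by positivity), ENNReal.ofReal_natCast]
  push_cast
  ring

lemma e5_prob (h0 : 0 ≤ p) (h1 : p ≤ 1) {i j k l : Fin 4} (hij : i ≠ j) (hik : i ≠ k) (hil : i ≠ l)
    (hjk : j ≠ k) (hjl : j ≠ l) (hkl : k ≠ l)
    (hall : ∀ m : Fin 4, m = i ∨ m = j ∨ m = k ∨ m = l) (a : V n 4) :
    law n 4 p {ω | ¬ ∃ u : V n 4, ω u = true ∧ u k ≠ a k ∧ u l ≠ a l} ≤
      ENNReal.ofReal ((1 - p) ^ (n * ((n - 1) * (n - 2)))) := by
  classical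
  set Y : Finset (V n 4) := Fintype.piFinset fun m =>
    if m = i then univ else if m = j then univ else if m = k then
      univ.erase (a k) else univ.erase (a l) with hY
  have cY : n * ((n - 1) * (n - 2)) ≤ Y.card := by
    rw [hY, Fintype.card_piFinset, prod4 hij hik hil hjk hjl hkl hall]
    rw [if_pos rfl, if_neg hij.symm, if_pos rfl, if_neg hik.symm, if_neg hjk.symm, if_pos rfl,
      if_neg hil.symm, if_neg hjl.symm, if_neg hkl.symm, card_univ,
      Fintype.card_fin, card_erase_of_mem (mem_univ _), card_erase_of_mem (mem_univ _),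
      card_univ, Fintype.card_fin]
    refine Nat.mul_le_mul_left _ ?_
    rcases Nat.eq_zero_or_pos n with h | h
    · simp [h]
    · calc (n - 1) * (n - 2) ≤ (n - 1) * (n - 1) := Nat.mul_le_mul_left _ (by omega)
        _ = 1 * ((n - 1) * (n - 1)) := (one_mul _).symm
        _ ≤ n * ((n - 1) * (n - 1)) := Nat.mul_le_mul_right _ h
  refine (measure_mono ?_).trans (law_false_le h0 h1 Y cY)
  intro ω hω x hx
  rw [hY, Fintype.mem_piFinset] at hx
  have e3 := hx k
  have e4 := hx l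
  rw [if_neg hik.symm, if_neg hjk.symm, if_pos rfl, mem_erase] at e3
  rw [if_neg hil.symm, if_neg hjl.symm, if_neg hkl.symm, mem_erase] at e4
  by_contra hcon
  exact hω ⟨x, by simpa using hcon, e3.1, e4.1⟩

/-- configurations which, together with an open plane, fill the torus -/
def Fills (J : Finset (Fin 4)) (a : V n 4) : Set (V n 4 → Bool) :=
  {ω' | ∀ ω : V n 4 → Bool, (∀ x : V n 4, (∀ k, k ∉ J → x k = a k) → FinalOpen 3 ω x) →
    ∀ x, FinalOpen 3 (orC ω ω') x}

lemma fill_prob (h0 : 0 ≤ p) (h1 : p ≤ 1) {J : Finset (Fin 4)} (hJ : J.card = 2) (a : V n 4) :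
    law n 4 p (Fills J a)ᶜ ≤ ENNReal.ofReal (failBd n p) := by
  classical
  obtain ⟨i, j, hij, rfl⟩ := card_eq_two.1 hJ
  have hc : (({i, j} : Finset (Fin 4))ᶜ).card = 2 := by
    rw [card_compl, hJ, Fintype.card_fin]
  obtain ⟨k, l, hkl, hkl'⟩ := card_eq_two.1 hc
  have mem : ∀ m : Fin 4, m ∉ ({i, j} : Finset (Fin 4)) ↔ m = k ∨ m = l := by
    intro m
    rw [← mem_compl, hkl', mem_insert, mem_singleton]
  have hk := (mem k).2 (Or.inl rfl)
  have hl := (mem l).2 (Or.inr rfl)
  rw [mem_insert, mem_singleton, not_or] at hk hl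
  have hall : ∀ m : Fin 4, m = i ∨ m = j ∨ m = k ∨ m = l := by
    intro m
    by_cases hm : m ∈ ({i, j} : Finset (Fin 4))
    · rw [mem_insert, mem_singleton] at hm; tauto
    · have := (mem m).1 hm; tauto
  have hall' : ∀ m : Fin 4, m = i ∨ m = j ∨ m = l ∨ m = k := fun m => by
    have := hall m; tauto
  have hik : i ≠ k := Ne.symm hk.1
  have hjk : j ≠ k := Ne.symm hk.2
  have hil : i ≠ l := Ne.symm hl.1
  have hjl : j ≠ l := Ne.symm hl.2
  set S1 : Set (V n 4 → Bool) := {ω | ¬ ∃ y1 y2 : V n 4, ω y1 = true ∧ ω y2 = true ∧ y1 k = y2 k ∧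
    y1 k ≠ a k ∧ y1 l = a l ∧ y2 l = a l ∧ y1 i ≠ y2 i ∧ y1 j ≠ y2 j} with hS1
  set S2 : Set (V n 4 → Bool) := {ω | ¬ ∃ y1 y2 : V n 4, ω y1 = true ∧ ω y2 = true ∧ y1 l = y2 l ∧
    y1 l ≠ a l ∧ y1 k = a k ∧ y2 k = a k ∧ y1 i ≠ y2 i ∧ y1 j ≠ y2 j} with hS2
  set S3 : Set (V n 4 → Bool) := {ω | ¬ ∀ b c : Fin n, ∃ y : V n 4, ω y = true ∧ y l = a l ∧
    y j ≠ b ∧ y k ≠ a k ∧ y k ≠ c} with hS3
  set S4 : Set (V n 4 → Bool) := {ω | ¬ ∀ b c : Fin n, ∃ y : V n 4, ω y = true ∧ y k = a k ∧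
    y j ≠ b ∧ y l ≠ a l ∧ y l ≠ c} with hS4
  set S5 : Set (V n 4 → Bool) := {ω | ¬ ∃ u : V n 4, ω u = true ∧ u k ≠ a k ∧ u l ≠ a l} with hS5
  have hsub : (Fills ({i, j} : Finset (Fin 4)) a)ᶜ ⊆ S1 ∪ (S2 ∪ (S3 ∪ (S4 ∪ S5))) := by
    intro ω' hω'
    by_contra hcon
    simp only [Set.mem_union, not_or] at hcon
    obtain ⟨c1, c2, c3, c4, c5⟩ := hcon
    rw [hS1, Set.mem_ofPred_eq, not_not] at c1
    rw [hS2, Set.mem_ofPred_eq, not_not] at c2
    rw [hS3, Set.mem_ofPred_eq, not_not] at c3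
    rw [hS4, Set.mem_ofPred_eq, not_not] at c4
    rw [hS5, Set.mem_ofPred_eq, not_not] at c5
    apply hω'
    intro ω hω
    have up : ∀ v, ω' v = true → orC ω ω' v = true := fun v hv => by simp [orC, hv]
    have upl : ∀ v, ω v = true → orC ω ω' v = true := fun v hv => by simp [orC, hv]
    have hP : ∀ x : V n 4, x k = a k → x l = a l → FinalOpen 3 (orC ω ω') x := by
      intro x hxk hxl
      refine final_mono upl (hω x fun m hm => ?_)
      rcases (mem m).1 hm with rfl | rfl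
      · exact hxk
      · exact hxl
    have hQ := fill_three (ω := orC ω ω') hij hik hil hjk hjl hkl hall a hP (by
        obtain ⟨y1, y2, o1, o2, r⟩ := c1
        exact ⟨y1, y2, up _ o1, up _ o2, r⟩) (by
        intro b c
        obtain ⟨y, o, r⟩ := c3 b c
        exact ⟨y, up _ o, r⟩)
    have hQ' := fill_three (ω := orC ω ω') hij hil hik hjl hjk hkl.symm hall' a
      (fun x h1 h2 => hP x h2 h1) (by
        obtain ⟨y1, y2, o1, o2, r⟩ := c2
        exact ⟨y1, y2, up _ o1, up _ o2, r⟩) (by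
        intro b c
        obtain ⟨y, o, r⟩ := c4 b c
        exact ⟨y, up _ o, r⟩)
    exact fill_all hij hik hil hjk hjl hkl hall a hQ hQ' (by
      obtain ⟨u, o, r⟩ := c5
      exact ⟨u, up _ o, r⟩)
  have b1 := g1_prob (n := n) h0 h1 hij hik hil hjk hjl hkl hall a
  have b2 := g1_prob (n := n) h0 h1 hij hil hik hjl hjk hkl.symm hall' a
  have b3 := e2_prob (n := n) h0 h1 hij hik hil hjk hjl hkl hall a
  have b4 := e2_prob (n := n) h0 h1 hij hil hik hjl hjk hkl.symm hall' a
  have b5 := e5_prob (n := n) h0 h1 hij hik hil hjk hjl hkl hall a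
  have hz0 : 0 ≤ (1 - p) ^ ((n / 2) * (n / 2)) := pow_nonneg (by linarith) _
  have hz1 : (1 - p) ^ ((n / 2) * (n / 2)) ≤ 1 := pow_le_one₀ (by linarith) (by linarith)
  have hw0 : 0 ≤ (1 - p) ^ (n * ((n - 1) * (n - 2))) := pow_nonneg (by linarith) _
  have hx0 : 0 ≤ (1 - (1 - (1 - p) ^ ((n / 2) * (n / 2))) ^ 2) ^ (n - 1) :=
    pow_nonneg (by nlinarith) _
  calc law n 4 p (Fills {i, j} a)ᶜ ≤ law n 4 p (S1 ∪ (S2 ∪ (S3 ∪ (S4 ∪ S5)))) := measure_mono hsub
    _ ≤ law n 4 p S1 + (law n 4 p S2 + (law n 4 p S3 + (law n 4 p S4 + law n 4 p S5))) := by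
        refine (measure_union_le _ _).trans (add_le_add le_rfl ?_)
        refine (measure_union_le _ _).trans (add_le_add le_rfl ?_)
        refine (measure_union_le _ _).trans (add_le_add le_rfl ?_)
        exact measure_union_le _ _
    _ ≤ _ := add_le_add b1 (add_le_add b2 (add_le_add b3 (add_le_add b4 b5)))
    _ = ENNReal.ofReal (failBd n p) := by
        rw [← ENNReal.ofReal_add (by positivity) (by positivity),
          ← ENNReal.ofReal_add (by positivity) (by positivity),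
          ← ENNReal.ofReal_add (by positivity) (by positivity),
          ← ENNReal.ofReal_add (by positivity) (by positivity)]
        congr 1
        unfold failBd
        ring

end Pool.Agent.K6.H74.Ham
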