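import Mathlib
import Pool.Agent.K6.H74.HamGap

/-!
Bootstrap percolation with threshold three on the four dimensional Hamming torus: assembly.
-/

set_option autoImplicit false

open Finset MeasureTheory ProbabilityTheory Function Filter
open scoped ENNReal

namespace Pool.Agent.K6.H74.Ham

open Pool.Agent.R958.Ham

variable {n : ℕ} {p : ℝ}

/-! ### the lower bound for the plane threshold -/

/-- the neighbours of a vertex -/
def Nb (v : V n 4) : Finset (V n 4) := univ.filter fun w => hammingDist v w = 1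

lemma card_Nb (v : V n 4) : (Nb v).card ≤ 4 * n := by
  classical
  have hsub : Nb v ⊆ (univ : Finset (Fin 4 × Fin n)).image (fun kt => update v kt.1 kt.2) := by
    intro w hw
    rw [Nb, mem_filter] at hw
    have h1 := hw.2
    have h2 : ∃ k, v k ≠ w k := by
      by_contra hcon
      push Not at hcon
      have : v = w := funext hcon
      rw [this, hammingDist_self] at h1
      omega
    obtain ⟨k, hk⟩ := h2
    rw [mem_image]
    refine ⟨(k, w k), mem_univ _, ?_⟩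
    funext m
    by_cases hm : m = k
    · subst hm; rw [update_self]
    · rw [update_of_ne hm]
      by_contra hne
      exact hm (dist_one_eq h1 hne hk)
  refine (card_le_card hsub).trans (card_image_le.trans ?_)
  rw [card_univ, Fintype.card_prod, Fintype.card_fin, Fintype.card_fin]

lemma exists_three (hn : 4 ≤ n) {ω : V n 4 → Bool} (h : SubgraphOpen 3 2 ω) :
    ∃ v, 3 ≤ ((Nb v).filter fun w => ω w = true).card := by
  classical
  by_contra hcon
  push Not at hcon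
  have hstep : step 3 ω = ω := by
    funext v
    have h1 := hcon v
    rw [Nb, filter_filter] at h1
    unfold step
    rw [decide_eq_false, Bool.or_false]
    intro h2
    refine absurd h1 (not_lt.2 (h2.trans (le_of_eq ?_)))
    congr
  have hit : ∀ j, (step 3)^[j] ω = ω := by
    intro j
    induction j with
    | zero => rfl
    | succ j ih => rw [iterate_succ_apply', ih, hstep]
  obtain ⟨J, hJ, a, ha⟩ := h
  obtain ⟨i, hi⟩ : J.Nonempty := card_pos.1 (by omega)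
  have hopen : ∀ t : Fin n, ω (update a i t) = true := by
    intro t
    obtain ⟨j, hj⟩ := ha (update a i t) (fun k hk => by
      rw [update_of_ne]
      rintro rfl
      exact hk hi)
    rw [hit j] at hj
    exact hj
  have h2 := hcon a
  have h3 : ((univ : Finset (Fin n)).erase (a i)).image (fun t => update a i t) ⊆
      (Nb a).filter fun w => ω w = true := by
    intro w hw
    rw [mem_image] at hw
    obtain ⟨t, ht, rfl⟩ := hw
    rw [mem_erase] at ht
    rw [mem_filter, Nb, mem_filter]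
    exact ⟨⟨mem_univ _, dist_upd a ht.1⟩, hopen t⟩
  have h4 := (card_le_card h3).trans_lt h2
  rw [card_image_of_injective _ (update_injective a i), card_erase_of_mem (mem_univ _),
    card_univ, Fintype.card_fin] at h4
  omega

lemma plane_prob (hn : 4 ≤ n) (h0 : 0 ≤ p) (h1 : p ≤ 1) :
    law n 4 p {ω | SubgraphOpen 3 2 ω} ≤ ENNReal.ofReal (64 * n ^ 7 * p ^ 3) := by
  classical
  have hsub : {ω : V n 4 → Bool | SubgraphOpen 3 2 ω} ⊆
      ⋃ v ∈ (univ : Finset (V n 4)), ⋃ K ∈ powersetCard 3 (Nb v), {ω | ∀ x ∈ K, ω x = true} := by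
    intro ω hω
    obtain ⟨v, hv⟩ := exists_three hn hω
    obtain ⟨K, hK1, hK2⟩ := exists_subset_card_eq hv
    simp only [Set.mem_iUnion]
    refine ⟨v, mem_univ _, K, mem_powersetCard.2 ⟨fun x hx => (mem_filter.1 (hK1 hx)).1, hK2⟩,
      fun x hx => (mem_filter.1 (hK1 hx)).2⟩
  have hone : ∀ v : V n 4, law n 4 p (⋃ K ∈ powersetCard 3 (Nb v), {ω | ∀ x ∈ K, ω x = true}) ≤
      ENNReal.ofReal (64 * n ^ 3 * p ^ 3) := by
    intro v
    refine (measure_biUnion_finset_le _ _).trans ?_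
    have h2 : ∀ K ∈ powersetCard 3 (Nb v), law n 4 p {ω | ∀ x ∈ K, ω x = true} =
        ENNReal.ofReal p ^ 3 := by
      intro K hK
      rw [law_all h0 h1, (mem_powersetCard.1 hK).2]
    rw [sum_congr rfl h2, sum_const, nsmul_eq_mul, card_powersetCard,
      ENNReal.ofReal_mul (by positivity), ENNReal.ofReal_pow h0]
    refine mul_le_mul' ?_ le_rfl
    have h3 : (Nb v).card.choose 3 ≤ 64 * n ^ 3 := by
      calc (Nb v).card.choose 3 ≤ (Nb v).card ^ 3 := Nat.choose_le_pow _ _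
        _ ≤ (4 * n) ^ 3 := Nat.pow_le_pow_left (card_Nb v) 3
        _ = 64 * n ^ 3 := by ring
    rw [← ENNReal.ofReal_natCast]
    refine ENNReal.ofReal_le_ofReal ?_
    exact_mod_cast h3
  refine (measure_mono hsub).trans ((measure_biUnion_finset_le _ _).trans ?_)
  refine (sum_le_sum fun v _ => hone v).trans ?_
  rw [sum_const, nsmul_eq_mul, card_univ, Fintype.card_fun, Fintype.card_fin, Fintype.card_fin,
    ← ENNReal.ofReal_natCast, ← ENNReal.ofReal_mul (by positivity)]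
  refine ENNReal.ofReal_le_ofReal (le_of_eq ?_)
  push_cast
  ring

lemma half_ofReal : (1 / 2 : ℝ≥0∞) = ENNReal.ofReal (1 / 2) := by
  rw [ENNReal.ofReal_div_of_pos (by norm_num)]
  simp

lemma crit_low (hn : 4 ≤ n) (hp : IsCritical n 4 3 2 p) : 1 ≤ 128 * (n : ℝ) ^ 7 * p ^ 3 := by
  obtain ⟨h0, h1, h2⟩ := hp
  have h3 := plane_prob hn h0 h1
  rw [h2, half_ofReal] at h3
  have h4 := (ENNReal.ofReal_le_ofReal_iff (by positivity)).1 h3
  linarith

/-! ### the failure bound is small -/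

lemma exp_neg_le (y : ℝ) (hy : 0 < y) : Real.exp (-y) ≤ 720 / y ^ 6 := by
  have h := Real.pow_div_factorial_le_exp y hy.le 6
  rw [Real.exp_neg, inv_eq_one_div, div_le_div_iff₀ (Real.exp_pos _) (by positivity)]
  rw [div_le_iff₀ (by positivity)] at h
  have : ((Nat.factorial 6 : ℕ) : ℝ) = 720 := by norm_num [Nat.factorial]
  rw [this] at h
  linarith

lemma exp_four : Real.exp (-4) ≤ 1 / 48 := by
  have h := Real.exp_one_gt_d9
  have e : Real.exp (-4) = (Real.exp 1 ^ 4)⁻¹ := by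
    rw [← Real.exp_nat_mul, ← Real.exp_neg]
    norm_num
  rw [e, inv_eq_one_div]
  apply one_div_le_one_div_of_le (by norm_num)
  have : (2.7 : ℝ) ≤ Real.exp 1 := by linarith
  calc (48:ℝ) ≤ 2.7 ^ 4 := by norm_num
    _ ≤ _ := pow_le_pow_left₀ (by norm_num) this 4

lemma one_sub_pow_le (h1 : p ≤ 1) (N : ℕ) : (1 - p) ^ N ≤ Real.exp (-(p * N)) := by
  calc (1 - p) ^ N ≤ (Real.exp (-p)) ^ N :=
        pow_le_pow_left₀ (by linarith) (Real.one_sub_le_exp_neg _) _
    _ = Real.exp (-(p * N)) := by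
        rw [← Real.exp_nat_mul]
        congr 1
        ring

lemma part_two (h0 : 0 ≤ p) (h1 : p ≤ 1) (hn : 1000000 ≤ n) (hp : 1 ≤ 128 * (n : ℝ) ^ 7 * p ^ 3) :
    (2 * (n : ℝ) ^ 2 + 1) * (1 - p) ^ (n * ((n - 1) * (n - 2))) ≤ 1 / 12 := by
  have hnr : (1000000 : ℝ) ≤ n := by exact_mod_cast hn
  set N : ℕ := n * ((n - 1) * (n - 2)) with hN
  have hNr : (n : ℝ) ^ 3 / 2 ≤ (N : ℝ) := by
    rw [hN]
    push_cast [Nat.cast_sub (by omega : 1 ≤ n), Nat.cast_sub (by omega : 2 ≤ n)]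
    nlinarith [mul_nonneg (by linarith : (0:ℝ) ≤ n) (by nlinarith : (0:ℝ) ≤ (n:ℝ) * (n - 6) + 4)]
  set y : ℝ := p * N with hy
  have hp0 : 0 < p := by
    rcases h0.lt_or_eq with h | h
    · exact h
    · rw [← h] at hp; norm_num at hp
  have hy3 : (n : ℝ) ^ 2 / 1024 ≤ y ^ 3 := by
    have e1 : (p * ((n : ℝ) ^ 3 / 2)) ^ 3 ≤ y ^ 3 :=
      pow_le_pow_left₀ (by positivity) (mul_le_mul_of_nonneg_left hNr h0) 3
    have e2 : (p * ((n : ℝ) ^ 3 / 2)) ^ 3 = (128 * (n : ℝ) ^ 7 * p ^ 3) * ((n : ℝ) ^ 2 / 1024) := by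
      ring
    rw [e2] at e1
    refine le_trans ?_ e1
    nlinarith [mul_le_mul_of_nonneg_right hp (by positivity : (0:ℝ) ≤ (n : ℝ) ^ 2 / 1024)]
  have hypos : 0 < y := by
    have : 0 < (N : ℝ) := lt_of_lt_of_le (by positivity) hNr
    positivity
  have hy6 : (n : ℝ) ^ 4 / 1048576 ≤ y ^ 6 := by
    calc (n : ℝ) ^ 4 / 1048576 = ((n : ℝ) ^ 2 / 1024) ^ 2 := by ring
      _ ≤ (y ^ 3) ^ 2 := pow_le_pow_left₀ (by positivity) hy3 2
      _ = y ^ 6 := by ring
  have h5 : (1 - p) ^ N ≤ 720 * 1048576 / (n : ℝ) ^ 4 := by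
    refine (one_sub_pow_le h1 N).trans ((exp_neg_le y hypos).trans ?_)
    rw [div_le_div_iff₀ (by positivity) (by positivity)]
    have : (n : ℝ) ^ 4 ≤ 1048576 * y ^ 6 := by linarith
    nlinarith
  have h6 : (2 * (n : ℝ) ^ 2 + 1) ≤ 3 * (n : ℝ) ^ 2 := by nlinarith
  calc (2 * (n : ℝ) ^ 2 + 1) * (1 - p) ^ N ≤ (3 * (n : ℝ) ^ 2) * (720 * 1048576 / (n : ℝ) ^ 4) :=
        mul_le_mul h6 h5 (pow_nonneg (by linarith) _) (by positivity)
    _ = 2264924160 / (n : ℝ) ^ 2 := by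
        field_simp
        norm_num
    _ ≤ 2264924160 / (1000000 : ℝ) ^ 2 :=
        div_le_div_of_nonneg_left (by norm_num) (by norm_num) (pow_le_pow_left₀ (by norm_num) hnr 2)
    _ ≤ 1 / 12 := by norm_num

lemma part_one (h0 : 0 ≤ p) (h1 : p ≤ 1) (hn : 10 ^ 15 ≤ n) (hp : 1 ≤ 128 * (n : ℝ) ^ 7 * p ^ 3) :
    (1 - (1 - (1 - p) ^ ((n / 2) * (n / 2))) ^ 2) ^ (n - 1) ≤ 1 / 48 := by
  have hnr : (10 : ℝ) ^ 15 ≤ n := by exact_mod_cast hn
  set M : ℕ := (n / 2) * (n / 2) with hM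
  have hhalf : (n : ℝ) / 3 ≤ ((n / 2 : ℕ) : ℝ) := by
    have h2 : n ≤ 3 * (n / 2) := by omega
    have h3 : (n : ℝ) ≤ 3 * ((n / 2 : ℕ) : ℝ) := by exact_mod_cast h2
    linarith
  have hMr : (n : ℝ) ^ 2 / 9 ≤ (M : ℝ) := by
    rw [hM]
    push_cast
    nlinarith [mul_le_mul hhalf hhalf (by positivity) (by positivity)]
  set u : ℝ := p * M with hu
  have hu0 : 0 ≤ u := by positivity
  have hu3 : 1 / (93312 * (n : ℝ)) ≤ u ^ 3 := by
    have e1 : (p * ((n : ℝ) ^ 2 / 9)) ^ 3 ≤ u ^ 3 :=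
      pow_le_pow_left₀ (by positivity) (mul_le_mul_of_nonneg_left hMr h0) 3
    have e2 : (p * ((n : ℝ) ^ 2 / 9)) ^ 3 = (128 * (n : ℝ) ^ 7 * p ^ 3) * (1 / (93312 * (n : ℝ))) := by
      field_simp
      ring
    rw [e2] at e1
    refine le_trans ?_ e1
    have : (0:ℝ) ≤ 1 / (93312 * (n : ℝ)) := by positivity
    nlinarith
  have hz : (1 - p) ^ M ≤ 1 / (1 + u) := by
    refine (one_sub_pow_le h1 M).trans ?_
    rw [Real.exp_neg, inv_eq_one_div]
    apply one_div_le_one_div_of_le (by linarith)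
    linarith [Real.add_one_le_exp u]
  set s : ℝ := u / (1 + u) with hs
  have hs0 : 0 ≤ s := by positivity
  have hsz : s ≤ 1 - (1 - p) ^ M := by
    have : s = 1 - 1 / (1 + u) := by rw [hs]; field_simp; ring
    linarith
  have hz0 : 0 ≤ (1 - p) ^ M := pow_nonneg (by linarith) _
  have hz1 : (1 - p) ^ M ≤ 1 := pow_le_one₀ (by linarith) (by linarith)
  have hsq : s ^ 2 ≤ (1 - (1 - p) ^ M) ^ 2 := pow_le_pow_left₀ hs0 hsz 2
  have hbase : 1 - (1 - (1 - p) ^ M) ^ 2 ≤ Real.exp (-(s ^ 2)) := by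
    have := Real.one_sub_le_exp_neg (s ^ 2)
    linarith
  have hbase0 : 0 ≤ 1 - (1 - (1 - p) ^ M) ^ 2 := by nlinarith
  have hkey : 4 ≤ ((n - 1 : ℕ) : ℝ) * s ^ 2 := by
    have hn1 : (n : ℝ) / 2 ≤ ((n - 1 : ℕ) : ℝ) := by
      push_cast [Nat.cast_sub (by omega : 1 ≤ n)]
      linarith
    by_cases hu1 : 1 ≤ u
    · have hs2 : 1 / 2 ≤ s := by
        rw [hs, div_le_div_iff₀ (by norm_num) (by linarith)]
        linarith
      have : (1 / 2 : ℝ) ^ 2 ≤ s ^ 2 := pow_le_pow_left₀ (by norm_num) hs2 2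
      have h16 : (16 : ℝ) ≤ (n : ℝ) / 2 := by linarith
      nlinarith
    · push Not at hu1
      have hs2 : u / 2 ≤ s := by
        rw [hs, div_le_div_iff₀ (by norm_num) (by linarith)]
        nlinarith
      have h2 : (u / 2) ^ 2 ≤ s ^ 2 := pow_le_pow_left₀ (by positivity) hs2 2
      -- n u^2 ≥ 32
      have h3 : 32 ≤ (n : ℝ) * u ^ 2 := by
        by_contra hlt
        push Not at hlt
        have h4 : ((n : ℝ) * u ^ 2) ^ 3 < 32 ^ 3 := pow_lt_pow_left₀ hlt (by positivity) (by norm_num)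
        have h5 : ((n : ℝ) * u ^ 2) ^ 3 = n ^ 3 * (u ^ 3) ^ 2 := by ring
        have h6 : (1 / (93312 * (n : ℝ))) ^ 2 ≤ (u ^ 3) ^ 2 := pow_le_pow_left₀ (by positivity) hu3 2
        have h7 : (n : ℝ) ^ 3 * (1 / (93312 * (n : ℝ))) ^ 2 = n / 93312 ^ 2 := by
          field_simp
        have h8 : (n : ℝ) / 93312 ^ 2 ≤ n ^ 3 * (u ^ 3) ^ 2 := by
          rw [← h7]
          exact mul_le_mul_of_nonneg_left h6 (by positivity)
        rw [h5] at h4
        have h9 : (10 : ℝ) ^ 15 / 93312 ^ 2 ≤ n / 93312 ^ 2 :=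
          div_le_div_of_nonneg_right hnr (by positivity)
        norm_num at h9 h4
        linarith
      calc (4 : ℝ) ≤ ((n : ℝ) * u ^ 2) / 8 := by linarith
        _ = (n : ℝ) / 2 * (u / 2) ^ 2 := by ring
        _ ≤ _ := mul_le_mul hn1 h2 (by positivity) (by positivity)
  calc (1 - (1 - (1 - p) ^ M) ^ 2) ^ (n - 1) ≤ (Real.exp (-(s ^ 2))) ^ (n - 1) :=
        pow_le_pow_left₀ hbase0 hbase _
    _ = Real.exp (-(((n - 1 : ℕ) : ℝ) * s ^ 2)) := by
        rw [← Real.exp_nat_mul]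
        congr 1
        ring
    _ ≤ Real.exp (-4) := Real.exp_le_exp.2 (by linarith)
    _ ≤ 1 / 48 := exp_four

lemma failBd_le (h0 : 0 ≤ p) (h1 : p ≤ 1) (hn : 10 ^ 15 ≤ n)
    (hp : 1 ≤ 128 * (n : ℝ) ^ 7 * p ^ 3) : failBd n p ≤ 1 / 8 := by
  unfold failBd
  have := part_one h0 h1 hn hp
  have := part_two h0 h1 (by omega) hp
  linarith

/-! ### uniqueness and comparison of the critical values -/

lemma true_mem {θ i : ℕ} (hi : i ≤ 4) (hn : 1 ≤ n) :
    (fun _ : V n 4 => true) ∈ {ω : V n 4 → Bool | SubgraphOpen θ i ω} := by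
  obtain ⟨J, _, hJ⟩ := exists_subset_card_eq (s := (univ : Finset (Fin 4))) (n := i)
    (by rw [card_univ, Fintype.card_fin]; exact hi)
  exact ⟨J, hJ, fun _ => ⟨0, by omega⟩, fun x _ => final_of_init rfl⟩

lemma crit_le_of_half {θ i : ℕ} (hi : i ≤ 4) (hn : 1 ≤ n) {q r : ℝ} (hq : IsCritical n 4 θ i q)
    (hr1 : 0 ≤ r) (hr : 1 / 2 ≤ law n 4 r {ω | SubgraphOpen θ i ω}) : q ≤ r := by
  obtain ⟨q0, q1, q2⟩ := hq
  by_contra hlt
  push Not at hlt
  have h1 : law n 4 r {ω | SubgraphOpen θ i ω} < 1 := by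
    refine lt_of_le_of_lt (law_mono (incr_sub θ i) hr1 hlt.le q1) ?_
    rw [q2]
    exact ENNReal.half_lt_self one_ne_zero ENNReal.one_ne_top
  have h2 := law_strict (incr_sub θ i) hr1 hlt q1 ⟨_, true_mem hi hn⟩ h1
  rw [q2] at h2
  exact absurd (lt_of_le_of_lt hr h2) (lt_irrefl _)

lemma crit_unique {θ i : ℕ} (hi : i ≤ 4) (hn : 1 ≤ n) {q r : ℝ} (hq : IsCritical n 4 θ i q)
    (hr : IsCritical n 4 θ i r) : q = r :=
  le_antisymm (crit_le_of_half hi hn hq hr.1 hr.2.2.ge) (crit_le_of_half hi hn hr hq.1 hq.2.2.ge)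

lemma four_iff {ω : V n 4 → Bool} (hn : 1 ≤ n) : SubgraphOpen 3 4 ω ↔ ∀ x, FinalOpen 3 ω x := by
  constructor
  · rintro ⟨J, hJ, a, ha⟩ x
    have hJu : J = univ := by
      rw [← card_eq_iff_eq_univ, hJ, Fintype.card_fin]
    exact ha x (fun k hk => absurd (hJu ▸ mem_univ k) hk)
  · intro h
    exact ⟨univ, by simp, fun _ => ⟨0, by omega⟩, fun x _ => h x⟩

lemma crit_le (hn : 1 ≤ n) {q : ℝ} (hp : IsCritical n 4 3 2 p) (hq : IsCritical n 4 3 4 q) :
    p ≤ q := by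
  refine crit_le_of_half (by norm_num) hn hp hq.1 ?_
  rw [← hq.2.2]
  refine measure_mono fun ω hω => ?_
  have h := (four_iff hn).1 hω
  obtain ⟨J, _, hJ⟩ := exists_subset_card_eq (s := (univ : Finset (Fin 4))) (n := 2)
    (by rw [card_univ, Fintype.card_fin]; norm_num)
  exact ⟨J, hJ, fun _ => ⟨0, by omega⟩, fun x _ => h x⟩

lemma three_quarters (h0 : 0 ≤ p) (h1 : p ≤ 1) (hp : law n 4 p {ω | SubgraphOpen 3 2 ω} = 1 / 2) :
    law n 4 (p + p - p * p) {ω | ¬ SubgraphOpen 3 2 ω} ≤ 1 / 4 := by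
  classical
  have i1 := law_isProb (n := n) (d := 4) h0 h1
  set E : Set (V n 4 → Bool) := {ω | SubgraphOpen 3 2 ω} with hE
  have hc : law n 4 p Eᶜ = 1 / 2 := by
    rw [prob_compl_eq_one_sub (Set.toFinite _).measurableSet, hp]
    simp
  have e : {ω : V n 4 → Bool | ¬ SubgraphOpen 3 2 ω} = Eᶜ := rfl
  rw [e, law_or_apply h0 h1 h0 h1]
  calc ∫⁻ ω, law n 4 p {ω' | orC ω ω' ∈ Eᶜ} ∂law n 4 p
      ≤ ∫⁻ ω, Eᶜ.indicator (fun _ => (1 / 2 : ℝ≥0∞)) ω ∂law n 4 p := by
        refine lintegral_mono fun ω => ?_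
        by_cases hω : ω ∈ E
        · have : {ω' : V n 4 → Bool | orC ω ω' ∈ Eᶜ} = ∅ := by
            ext ω'
            simp only [Set.mem_ofPred_eq, Set.mem_compl_iff, Set.mem_empty_iff_false, iff_false,
              not_not]
            exact incr_or_left (incr_sub 3 2) hω ω'
          rw [this, measure_empty]
          exact bot_le
        · rw [Set.indicator_of_mem (by simpa using hω), ← hc]
          refine measure_mono fun ω' hω' => ?_
          intro h
          exact hω' (incr_or_right (incr_sub 3 2) h ω)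
    _ = 1 / 2 * (1 / 2) := by
        rw [lintegral_indicator_const (Set.toFinite _).measurableSet, hc]
    _ = 1 / 4 := by
        rw [half_ofReal, ← ENNReal.ofReal_mul (by norm_num),
          show (1 / 2 * (1 / 2) : ℝ) = 1 / 4 by norm_num, ENNReal.ofReal_div_of_pos (by norm_num)]
        simp
    _ ≤ 1 / 4 := le_rfl

lemma whole_prob (hn : 1 ≤ n) (h0 : 0 ≤ p) (h1 : p ≤ 1)
    (hp : law n 4 p {ω | SubgraphOpen 3 2 ω} = 1 / 2) (hF : failBd n p ≤ 1 / 8) :
    1 / 2 ≤ law n 4 ((p + p - p * p) + p - (p + p - p * p) * p) {ω | SubgraphOpen 3 4 ω} := by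
  classical
  set c : ℝ := p + p - p * p with hc
  have hc0 : 0 ≤ c := by nlinarith
  have hc1 : c ≤ 1 := by nlinarith
  have i1 := law_isProb (n := n) (d := 4) h0 h1
  have i2 := law_isProb (n := n) (d := 4) hc0 hc1
  have hq0 : 0 ≤ c + p - c * p := by nlinarith
  have hq1 : c + p - c * p ≤ 1 := by nlinarith
  have i3 := law_isProb (n := n) (d := 4) hq0 hq1
  set E : Set (V n 4 → Bool) := {ω | SubgraphOpen 3 2 ω} with hE
  set W : Set (V n 4 → Bool) := {ω | SubgraphOpen 3 4 ω} with hW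
  have hEc : law n 4 c Eᶜ ≤ 1 / 4 := three_quarters h0 h1 hp
  have hWc : law n 4 (c + p - c * p) Wᶜ ≤ 1 / 4 + 1 / 8 := by
    rw [law_or_apply hc0 hc1 h0 h1]
    calc ∫⁻ ω, law n 4 p {ω' | orC ω ω' ∈ Wᶜ} ∂law n 4 c
        ≤ ∫⁻ ω, Eᶜ.indicator (fun _ => (1 : ℝ≥0∞)) ω + 1 / 8 ∂law n 4 c := by
          refine lintegral_mono fun ω => ?_
          by_cases hω : ω ∈ E
          · rw [Set.indicator_of_notMem (by simpa using hω), zero_add]
            obtain ⟨J, hJ, a, ha⟩ := hω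
            have hsub : {ω' : V n 4 → Bool | orC ω ω' ∈ Wᶜ} ⊆ (Fills J a)ᶜ := by
              intro ω' hω' hf
              exact hω' ((four_iff hn).2 (hf ω ha))
            refine (measure_mono hsub).trans ((fill_prob h0 h1 hJ a).trans ?_)
            refine (ENNReal.ofReal_le_ofReal hF).trans (le_of_eq ?_)
            rw [ENNReal.ofReal_div_of_pos (by norm_num)]
            simp
          · rw [Set.indicator_of_mem (by simpa using hω)]
            exact le_trans prob_le_one le_self_add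
      _ = law n 4 c Eᶜ + 1 / 8 := by
          rw [lintegral_add_left (measurable_of_countable _),
            lintegral_indicator_const (Set.toFinite _).measurableSet, one_mul, lintegral_const,
            measure_univ, mul_one]
      _ ≤ 1 / 4 + 1 / 8 := add_le_add hEc le_rfl
  have h2 : law n 4 (c + p - c * p) W = 1 - law n 4 (c + p - c * p) Wᶜ := by
    rw [← prob_compl_eq_one_sub (Set.toFinite _).measurableSet, compl_compl]
  rw [h2]
  have h3 : (1 / 4 + 1 / 8 : ℝ≥0∞) ≤ 1 / 2 := by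
    have e4 : (1 / 4 : ℝ≥0∞) = ENNReal.ofReal (1 / 4) := by
      rw [ENNReal.ofReal_div_of_pos (by norm_num)]; simp
    have e8 : (1 / 8 : ℝ≥0∞) = ENNReal.ofReal (1 / 8) := by
      rw [ENNReal.ofReal_div_of_pos (by norm_num)]; simp
    rw [e4, e8, half_ofReal, ← ENNReal.ofReal_add (by norm_num) (by norm_num)]
    exact ENNReal.ofReal_le_ofReal (by norm_num)
  calc (1 / 2 : ℝ≥0∞) = 1 - 1 / 2 := by simp
    _ ≤ _ := tsub_le_tsub_left (hWc.trans h3) 1

/-- the two critical values differ by a factor of at most three -/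
theorem crit_compare (hn : 10 ^ 15 ≤ n) {q : ℝ} (hp : IsCritical n 4 3 2 p)
    (hq : IsCritical n 4 3 4 q) : 0 < p ∧ p ≤ q ∧ q ≤ 3 * p := by
  have hn1 : 1 ≤ n := le_trans (by norm_num) hn
  have hn4 : 4 ≤ n := le_trans (by norm_num) hn
  have hlow := crit_low hn4 hp
  have hp0 : 0 < p := by
    rcases hp.1.lt_or_eq with h | h
    · exact h
    · rw [← h] at hlow; norm_num at hlow
  refine ⟨hp0, crit_le hn1 hp hq, ?_⟩
  have hw := whole_prob hn1 hp.1 hp.2.1 hp.2.2 (failBd_le hp.1 hp.2.1 hn hlow)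
  have hc0 : 0 ≤ (p + p - p * p) + p - (p + p - p * p) * p := by
    have h1 := hp.2.1
    have e : (p + p - p * p) + p - (p + p - p * p) * p = p * (1 + (1 - p) + (1 - p) ^ 2) := by ring
    rw [e]
    have : 0 ≤ 1 - p := by linarith
    positivity
  refine (crit_le_of_half le_rfl hn1 hq hc0 hw).trans ?_
  have h1 := hp.2.1
  nlinarith [mul_nonneg hp0.le (mul_nonneg hp0.le (by linarith : (0:ℝ) ≤ 3 - p))]

end Pool.Agent.K6.H74.Ham
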